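import Pool.Agent.Run7.h261.LI.Even

/-!
# Local factors of the motives of powers of hyperkähler varieties

Let `X` be a projective hyperkähler variety over a number field `K` (for example `ℚ`), and let `u` be a
finite place of `K`. The tensor constructions `e` (`Expr`) are built from the `H^i(X)` and Tate twists
with spaces of linear maps; they contain the realizations `H^{i_1}(X) ⊗ ⋯ ⊗ H^{i_N}(X)(r)` of the direct
summands of the motives of the powers of `X`, and their duals. We prove that the local factor of `e` at
`u` is rational and does not depend on `ℓ`:

(1) for all `e` of even weight, at all finite places `u`, if the first fundamental theorem holds for `e`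
(`HKTwo.Weyl`; this is known for all `e` of even weight if `b₂(X)` is odd) and the traces of the elements
of positive degree of the Weil group on `H²(X)` are rational and independent of `ℓ` (this is known if
the Künneth projector for `H²(X)` is algebraic, for example for the types `K3^[n]` and `Kum_n`). In
particular for all motives `h²(X)^{⊗ a} ⊗ (h²(X)^∨)^{⊗ b}(r)`, and for the part of even degree of the
motive of `X ^ N`;

(2) for all `e`, of even or odd weight, at all finite places `u`, if `X` has dimension four and the
traces on `H²(X)` are as in (1). The cohomology in odd degrees is not zero in general: `b₃ = 8` for the
type `Kum_2`. So the local factors of the cohomology `H^j(X ^ N)(r)` of the powers of `X` are rational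
and independent of `ℓ` in all degrees `j`;

(3) for all `e`, of even or odd weight, at the places `u` where `H²(X)` is potentially unramified, and
without a condition on the deformation type of `X`.

See the file `MP_898f40_nt.HyperkaehlerEvenDegrees` for the idea of the proof of (1). In (2) the traces
of the elements of positive degree of the Weil group on `H³(X)` and `H⁵(X)` are determined by the even
degrees and the alternating sum (Ochiai, T. Saito), by hard Lefschetz. In (3) the traces on the
`H^i(X)` are separated by their weights. The traces of inverses are rational functions of the traces of
powers, and the trace of `g` on the space of linear maps from `a` to `b` is the product of the traces of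
`g⁻¹` on `a` and of `g` on `b`, so in (2) and (3) the traces on all tensor constructions are rational
and independent of `ℓ`. The weight-monodromy conjecture is true for the tensor constructions (starting
library `N184.HK`, and `Run7.h261.PW` for spaces of linear maps), and so the traces on the kernel of the
monodromy operator are rational and independent of `ℓ`, and then the traces on the part which is fixed by
inertia, by taking averages.
-/

set_option autoImplicit false

namespace Pool.Agent.Results.MP_a3c811_ag.HyperkaehlerPowers

open Pool.Agent.Run7.h261.LI Pool.Agent.Run7.h261.MT Pool.Agent.W401.Cheb NumberField
open IsDedekindDomain

/-- **Tensor constructions with the cohomology of a hyperkähler variety.** Let `X` be a projective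
hyperkähler variety over the number field `K`, `u` a finite place, `Q` a maximal ideal above `u`, `g` a
geometric Frobenius element at `Q`, and `e` a tensor construction with the `H^i(X)` and Tate twists.
Then `det (1 - g T)`, for the action of `g` on the part of `e` which is fixed by the inertia group,
has rational coefficients and is the same for all `ℓ` which are not below `u`: (1) if the weight of `e`
is even and `HKTwo.Weyl` holds for `e`, and the traces of the elements of positive degree of the Weil
group on `H²(X)` are rational and independent of `ℓ` (a field of `HKTwo`); (2) for all `e`, if `X` has
dimension four and the traces on `H²(X)` are as in (1); (3) for all `e`, if `H²(X)` is potentially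
unramified at `u`. -/
theorem result {K : Type} [Field K] [NumberField K] {u : HeightOneSpectrum (𝓞 K)}
    {Q : Ideal (𝓞 (AlgebraicClosure K))} (g : GK K) (hg : IsWeil u Q 1 g) :
    (∀ S : HKTwo K u Q, ∀ e : Expr, e.le S.d → Even e.wt → S.Weyl e → S.FactorIndep e g) ∧
    (∀ S : HKFour K u Q, ∀ e : Expr, e.le S.d → S.FactorIndep e g) ∧
    (∀ S : HKBase K u Q, AltTraceIndep S.R → (∀ l, (S.R l).PotUnramified) →
      ∀ e : Expr, e.le S.d → S.FactorIndep e g) :=
  ⟨fun S _ he _ hV => S.factor he hV hg, fun S _ he => S.all_ev he hg,
    fun S ha h0 _ he => S.unram_ev ha h0 he hg⟩

end Pool.Agent.Results.MP_a3c811_ag.HyperkaehlerPowers
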