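import Pool.Agent.Run7.h307.LI.Final

/-!
# MP_a3c811_ag: independence of `ℓ` of the local Euler factors near a normal crossing fibre

Let `K` be a finite extension of `ℚ_p` (for the problem `K = ℚ_p`), whose residue field has `q` elements,
`B` a smooth variety over `K`, `D = D_1 ∪ … ∪ D_r` a divisor with strict normal crossings on `B`, with
`D_j` given by `u_j = 0`, and `0 ∈ B(K)` a point of `D_1 ∩ … ∩ D_r`. Let `f : 𝒳 → B` be a projective
family, smooth over `B - D`, with unipotent local monodromy at `0`. Nothing is assumed about models over
the ring of integers of `K`: the degeneration takes place in characteristic zero.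

Let `Y` be the degenerate fibre of a semistable model of the family over a curve in `B` through `0`, and
suppose that the strata of `Y` (smooth projective varieties over `K`) satisfy the weight-monodromy
conjecture in the middle degrees (for fibres of dimension three: `H^3` of the components of `Y`, for
example if they are uniruled threefolds for which `H^3` comes from curves, such as rationally
connected ones). Then for each `ℓ ≠ p` there is a small set `S ℓ` of exceptional vectors of valuations,
contained in an algebraic hypersurface and with finitely many points on each ray in the open cone
(finite for `r = 1`), with the following property.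

Let `t` be a point of `B - D` with values in a finite extension `K(t)` of `K`, `K' ⊆ K(t)` a subfield,
and `M` a motive over `K'` which is, over `K(t)`, a direct summand of the motive of `X_t` (or dominated
by `X_t`), for example a motive `(X', π, 0)` over `ℚ`, where `X'` becomes `X_t` over `K(t)`, `K' = ℚ_p`.
(A Tate twist `(r)` of `M` replaces the variable `T` by `p^(-r) T`.) Suppose that the traces of the
elements of positive degree of the Weil group on the realizations of `M` in degree `m` are rational
numbers independent of `ℓ`. This is known in many cases, for example for `H^3` of threefolds with
`h^(2,0) = 0` (theorem of Ochiai and Saito on the alternating sum), but it does not give the local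
factors, which depend on the ranks of the powers of the monodromy operators. Then there is one polynomial
`P` with rational coefficients such that `det (1 - Frob T | V_ℓ ^ I) = P` for all `ℓ` for which `t`
lies in the polydisc of local constancy and the vector `(v(u_1(t)), …, v(u_r(t)))` is not in `S ℓ`.

Moreover `S ℓ = S ℓ'` if the limit cohomology groups, with all operators, are isomorphic for `ℓ` and
`ℓ'`, for example for families over number fields with strata of Tate type. Then the result holds for
all `ℓ` together.

Idea of the proof. The monodromy operator of `X_t` is `N_K + ∑ c_j N_j` (up to a factor), where `N_j` are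
the geometric monodromy operators on the limit cohomology, `c_j` is the valuation of `u_j(t)` and `N_K`
is the arithmetic monodromy of the limit. Its powers are isomorphisms between the parts of opposite
weights unless a nonzero polynomial vanishes at `c` (two commuting Lefschetz operators). So the
realizations are pure, the kernel of `N` has the trace `tr (g | M_0) - q^d tr (g | M_(-2))`, where `M` is
the monodromy filtration and `d = deg g`, and the projections onto the steps of `M` are polynomials
in `g` with rational coefficients independent of `ℓ`, by factoring the characteristic polynomial over
`ℚ` according to the absolute values of its roots. The mean value over the inertia group and Newton's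
identities give the local factor.
-/

set_option autoImplicit false

open Polynomial Run7.h307.LI Run7.h307.WM Run7.h307.WM2 Run7.h615.WL

namespace Pool.Agent.Results.MP_a3c811_ag.NearNormalCrossings

/-- **Independence of `ℓ` of the local Euler factors near a normal crossing fibre.** Let `Y` be the
`ℓ`-adic data, for all primes `ℓ` in `Λ`, of a projective family with `r` parameters over a `p`-adic field
`K` with a degenerate fibre over `0`, whose strata satisfy the weight-monodromy conjecture (`h`). There
are exceptional sets `S ℓ` of vectors of valuations, each contained in the zero set of a nonzero
polynomial and with finitely many points on each ray of the open cone, with `S ℓ = S ℓ'` if the limit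
cohomology groups for `ℓ` and `ℓ'` are isomorphic (`SameLimit`), such that the following holds for all
points `t` and all `m`. If `M` is dominated by `H^m(X_t)` and has rational traces which do not depend
on `ℓ`, there is a polynomial `P` over `ℚ` such that `det (1 - F T | V_ℓ ^ I) = P` for all Frobenius
elements `F` and all `ℓ` such that `t` belongs to the polydisc for `ℓ` and its vector of valuations is
not in `S ℓ`. -/
theorem result {Λ : Type} {Ω : Λ → Type} [∀ l, Field (Ω l)] [∀ l, CharZero (Ω l)]
    [∀ l, IsAlgClosed (Ω l)] {n q r : ℕ} (hq : 1 < q) (Y : Realizations Λ Ω n q r)
    (h : ∀ l, (Y.X l).StrataPure) :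
    ∃ S : Λ → Set (Fin r → ℚ),
      (∀ l, ∃ P : MvPolynomial (Fin r) ℚ, P ≠ 0 ∧ ∀ c ∈ S l, MvPolynomial.eval c P = 0) ∧
      (∀ l, ∀ b : Fin r → ℕ, (∀ j, 0 < b j) → {s : ℚ | (fun j => s * b j) ∈ S l}.Finite) ∧
      (∀ l l', SameLimit (Y.X l) (Y.X l') → S l = S l') ∧
      ∀ (t : Y.Point) (m : ℕ) (M : Y.Dominated t m), M.HasRationalTraces →
        ∃ P : ℚ[X], ∀ l, t ∈ Y.disc l → Y.val t ∉ S l → ∀ F,
          M.degree F = Multiplicative.ofAdd 1 → ∀ f,
            IsLocalFactor M.degree (M.R l).ρ F f ↔ f = P.map (algebraMap ℚ (Ω l)) :=
  ⟨fun l => badSet (Y.X l), fun l => (main' hq (Y.X l) (h l)).1,
    fun l => (main' hq (Y.X l) (h l)).2.1, fun _ _ hs => badSet_eq hs,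
    fun t m M hM => factors_rat hq Y h t m M hM⟩

end Pool.Agent.Results.MP_a3c811_ag.NearNormalCrossings
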