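import Pool.Agent.Run7.h514.WD.WMC

/-!
# MP_a3c811_ag: Euler factors of all twists and the Weil-Deligne representation

Let `p` be a prime number and `K` a finite extension of `ℚ_p` (for the problem `K = ℚ_p`), whose residue
field has `q` elements, with Weil group `W`. For a motive `M` over `ℚ`, in one cohomological degree `i`,
and `ℓ ≠ p` let `(r_ℓ, N_ℓ)` be the Weil-Deligne representation of `V_ℓ = V^i_ℓ(M)`, so that
`V_ℓ ^ I` is the space of the vectors in the kernel of `N_ℓ` which are fixed by `r_ℓ(I)`.

Question Q1 asks whether `det (1 - T Frob | V_ℓ ^ I)` is rational and independent of `ℓ`. It is a question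
on all motives at once, so it can be asked for the motives
`M ⊗ Sym^n h^1(E) ⊗ h(Spec L)`, where `E` is a fixed elliptic curve over `ℚ` with split multiplicative
reduction at `p` and `L` is a number field with only one place over `p` (each finite extension `K'` of
`ℚ_p` is the completion of such an `L`, by Krasner's lemma). Over `K'` we get
`det (1 - T^f Frob_(K') | (V_ℓ ⊗ Sym^n) ^ I')`.

**Theorem.** Q1 holds for all these motives (`n ≥ 0`, all `L`) if and only if for every `j` and every
element `g` of the Weil group the characteristic polynomial of `g` on the kernel of `N_ℓ ^ j` has
rational coefficients and is independent of `ℓ`. In this case, for all `ℓ` and `ℓ'`: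

* the Frobenius-semisimplifications of the Weil-Deligne representations `(r_ℓ, N_ℓ)` and
  `(r_ℓ', N_ℓ')` are isomorphic over every field which contains the two coefficient fields;
* an element of the inertia group is in the kernel of `r_ℓ` if and only if it is in the kernel of `r_ℓ'`
  (`V_ℓ` becomes semistable over the same extensions);
* the weight-monodromy conjecture holds for `V_ℓ` if and only if it holds for `V_ℓ'`.

So Q1, for all motives, is equivalent to the independence of `ℓ` of the whole Weil-Deligne
representation of all motives, and it implies that the weight-monodromy conjecture for one `ℓ` gives it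
for all `ℓ`. There is no hypothesis on the `V_ℓ`: the traces are not assumed to be independent of `ℓ`
and purity is not assumed.

Idea of the proof. A vector `∑ x_i ⊗ e_i` is killed by `N ⊗ 1 + 1 ⊗ N` if and only if
`x_i = (-N)^i x_0 / i!` and `N^(n+1) x_0 = 0`. So the kernel of the monodromy operator of
`V ⊗ Sym^n` is the kernel of `N^(n+1)` on `V`, with its action of the Weil group. An element `g` of
positive degree is a Frobenius element of an extension over which the inertia group acts unipotently for
two given primes `ℓ` and `ℓ'`; this gives the characteristic polynomials of the elements of positive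
degree, and the Cayley-Hamilton theorem gives the other ones. Conversely the Euler factors are given by
mean values of traces over finite quotients of inertia groups which do not depend on `ℓ`. The
isomorphism of the Frobenius-semisimplifications is constructed step by step on the images of the powers
`N^j`, from above. Finally the dimensions of the parts of given weight are traces of rational polynomials
in `g`.
-/

set_option autoImplicit false

open Polynomial Module TensorProduct Run7.h514.WD

namespace Pool.Agent.Results.MP_a3c811_ag.SteinbergTwists

/-- **The Euler factors of the twists and the Weil-Deligne representation.** Let `M ℓ` be the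
Weil-Deligne representation of the `ℓ`-adic realization of a motive, for `ℓ` in the set `Λ` (all primes
different from `p`), with coefficients in the field `F ℓ` (for example `ℚ_ℓ`). Then the Euler factors of
the motives `M ⊗ Sym^n h^1(E) ⊗ h(Spec L)` are rational and independent of `ℓ` if and only if `M` is
compatible: the characteristic polynomials of the elements of the Weil group on the kernels of the powers
of the monodromy operator are rational and independent of `ℓ`. If it is compatible then the
Frobenius-semisimplifications are isomorphic over each common field `Ω`, the kernels of `r` in the
inertia group are equal, and the weight-monodromy conjecture is independent of `ℓ`. -/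
theorem result {W : Type} [Group W] [TopologicalSpace W] {v : W →* Multiplicative ℤ}
    (hW : IsWeilGroup W v) {q : ℕ} (hq : 1 < q) {Λ : Type} {F : Λ → Type} [∀ l, Field (F l)]
    [∀ l, CharZero (F l)] {V : Λ → Type} [∀ l, AddCommGroup (V l)] [∀ l, Module (F l) (V l)]
    [∀ l, FiniteDimensional (F l) (V l)] (M : ∀ l, WDRep (F l) v q (V l)) :
    (TwistsIndependent hW hq M ↔ Compatible M) ∧ (Compatible M → SameForAll M) := by
  refine ⟨⟨fun h => ?_, fun h n => ?_⟩, fun h l l' => ⟨?_, fun g hg => ⟨fun h1 => ?_, fun h1 => ?_⟩,
    fun w => ⟨fun h1 => h.weightMonodromy hq l l' w h1, fun h1 => h.weightMonodromy hq l' l w h1⟩⟩⟩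
  · exact compatible_of_factors hW (fun l => Nat.cast_ne_zero.2 (by omega)) M h
  · exact factors_of_compatible hW (fun l => Nat.cast_ne_zero.2 (by omega)) M h n
  · exact h.iso (by omega) l l'
  · exact ((M l').mem_small.1 (h.small_le hW l l' ((M l).mem_small.2 ⟨hg, h1⟩))).2
  · exact ((M l).mem_small.1 (h.small_le hW l' l ((M l').mem_small.2 ⟨hg, h1⟩))).2

end Pool.Agent.Results.MP_a3c811_ag.SteinbergTwists
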